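import Mathlib

/-!
# The intersection of two echelon subgroups of `F₂` need not be an echelon subgroup

With `r = x⁻¹ y x y⁻¹` and `q = y x y⁻¹ = x r`, the subgroups `⟨x, r²⟩` and `⟨q, r²⟩` are echelon,
but their intersection is not.
-/

set_option autoImplicit false

namespace Pool.Agent.Results.MP_339e71_al.EchelonInter

/-- The rank of a subgroup `H` of a free group: the cardinality of a free basis of `H`
(`H` is free by the Nielsen-Schreier theorem). -/
noncomputable def rk {F : Type} [Group F] [IsFreeGroup F] (H : Subgroup F) : Cardinal :=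
  Cardinal.mk (IsFreeGroup.Generators H)

/-- `F_i = ⟨x_1, …, x_i⟩` for the ordered basis `x_1, …, x_n` given by `b` (so `x_{j+1} = b j`). -/
def initial {n : ℕ} (b : FreeGroupBasis (Fin n) (FreeGroup (Fin n))) (i : ℕ) :
    Subgroup (FreeGroup (Fin n)) :=
  Subgroup.closure {g | ∃ j : Fin n, (j : ℕ) < i ∧ b j = g}

/-- `H` is in echelon form with respect to the ordered basis `b`:
`rk (H ∩ F_i) - rk (H ∩ F_{i-1}) ≤ 1` for `i = 1, …, n`. -/
def EchelonForm {n : ℕ} (b : FreeGroupBasis (Fin n) (FreeGroup (Fin n)))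
    (H : Subgroup (FreeGroup (Fin n))) : Prop :=
  ∀ i : ℕ, 1 ≤ i → i ≤ n → rk (H ⊓ initial b i) ≤ rk (H ⊓ initial b (i - 1)) + 1

/-- `H` is an echelon subgroup of `F_n`. -/
def IsEchelon {n : ℕ} (H : Subgroup (FreeGroup (Fin n))) : Prop :=
  ∃ b : FreeGroupBasis (Fin n) (FreeGroup (Fin n)), EchelonForm b H

/-! ### Ranks -/

lemma card_pi_le {α β : Type} [Finite α] (f : (β → Multiplicative (ZMod 2)) → (α → Multiplicative (ZMod 2)))
    (hf : Function.Injective f) : Finite β ∧ Nat.card β ≤ Nat.card α := by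
  classical
  have : Finite (β → Multiplicative (ZMod 2)) := Finite.of_injective f hf
  have hfin : Finite β := by
    let g : β → (β → Multiplicative (ZMod 2)) :=
      fun b c => if c = b then Multiplicative.ofAdd 1 else 1
    apply Finite.of_injective g
    intro b c hbc
    by_contra hne
    have h1 := congrFun hbc b
    simp only [g, if_true, if_neg hne] at h1
    exact absurd h1 (by decide)
  refine ⟨hfin, ?_⟩
  have h2 := Nat.card_le_card_of_injective f hf
  have := Fintype.ofFinite α
  have := Fintype.ofFinite β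
  rw [Nat.card_pi, Nat.card_pi] at h2
  have h3 : Nat.card (Multiplicative (ZMod 2)) = 2 := by
    rw [Nat.card_eq_fintype_card]; rfl
  simp only [h3, Finset.prod_const, Finset.card_univ] at h2
  rw [Nat.card_eq_fintype_card, Nat.card_eq_fintype_card]
  exact (Nat.pow_le_pow_iff_right (by norm_num)).1 h2

lemma rk_le_of_surj {F : Type} [Group F] [IsFreeGroup F] (H : Subgroup F) (k : ℕ)
    (f : FreeGroup (Fin k) →* H) (hf : Function.Surjective f) : rk H ≤ k := by
  have h := card_pi_le (α := Fin k) (β := IsFreeGroup.Generators H)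
    (fun c => FreeGroup.lift.symm ((IsFreeGroup.lift c).comp f)) (by
      intro c d hcd
      have h1 : (IsFreeGroup.lift c).comp f = (IsFreeGroup.lift d).comp f :=
        FreeGroup.lift.symm.injective hcd
      have h2 : IsFreeGroup.lift c = IsFreeGroup.lift d := by
        ext z
        obtain ⟨w, rfl⟩ := hf z
        exact DFunLike.congr_fun h1 w
      exact IsFreeGroup.lift.injective h2)
  obtain ⟨h1, h2⟩ := h
  unfold rk
  rw [← Nat.cast_card]
  simp only [Nat.card_eq_fintype_card, Fintype.card_fin] at h2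
  exact_mod_cast h2

/-- A subgroup generated by `k` elements has rank at most `k`. -/
lemma rk_closure_le {F : Type} [Group F] [IsFreeGroup F] (k : ℕ) (g : Fin k → F) :
    rk (Subgroup.closure (Set.range g)) ≤ k := by
  let f : FreeGroup (Fin k) →* Subgroup.closure (Set.range g) :=
    FreeGroup.lift (fun i => ⟨g i, Subgroup.subset_closure ⟨i, rfl⟩⟩)
  apply rk_le_of_surj _ k f
  have h1 : (Subgroup.closure (Set.range g)).subtype.comp f = FreeGroup.lift g := by
    ext i
    simp [f]
  rintro ⟨z, hz⟩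
  have h2 : z ∈ (FreeGroup.lift g).range := by
    rw [FreeGroup.range_lift_eq_closure]; exact hz
  obtain ⟨w, hw⟩ := h2
  refine ⟨w, ?_⟩
  apply Subtype.ext
  change ((Subgroup.closure (Set.range g)).subtype.comp f) w = z
  rw [h1, hw]

lemma rk_ne_zero {F : Type} [Group F] [IsFreeGroup F] {H : Subgroup F} {g : F} (hg : g ∈ H)
    (hg1 : g ≠ 1) : 1 ≤ rk H := by
  unfold rk
  rw [Cardinal.one_le_iff_ne_zero, Cardinal.mk_ne_zero_iff]
  by_contra hne
  rw [not_nonempty_iff] at hne
  have h1 : (IsFreeGroup.toFreeGroup H ⟨g, hg⟩) = 1 := Subsingleton.elim _ _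
  have h2 : (⟨g, hg⟩ : H) = 1 := by
    apply (IsFreeGroup.toFreeGroup H).injective
    rw [h1, map_one]
  exact hg1 (congrArg Subtype.val h2)

lemma comm_of_subsingleton {α : Type} [Subsingleton α] (a b : FreeGroup α) : a * b = b * a := by
  have h : ∀ a b : FreeGroup α, b ∈ Subgroup.centralizer {a} := by
    intro a
    have h1 : ∀ i : α, a ∈ Subgroup.centralizer {FreeGroup.of i} := by
      intro i
      have h2 : (⊤ : Subgroup (FreeGroup α)) ≤ Subgroup.centralizer {FreeGroup.of i} := by
        rw [← FreeGroup.closure_range_of, Subgroup.closure_le]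
        rintro _ ⟨j, rfl⟩
        rw [Subsingleton.elim j i]
        rw [SetLike.mem_coe, Subgroup.mem_centralizer_singleton_iff]
      exact h2 (Subgroup.mem_top a)
    intro b
    have h3 : (⊤ : Subgroup (FreeGroup α)) ≤ Subgroup.centralizer {a} := by
      rw [← FreeGroup.closure_range_of, Subgroup.closure_le]
      rintro _ ⟨j, rfl⟩
      have := h1 j
      rw [Subgroup.mem_centralizer_singleton_iff] at this
      rw [SetLike.mem_coe, Subgroup.mem_centralizer_singleton_iff]
      exact this.symm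
    exact h3 (Subgroup.mem_top b)
  have := h a b
  rw [Subgroup.mem_centralizer_singleton_iff] at this
  exact this.symm

lemma two_le_rk {F : Type} [Group F] [IsFreeGroup F] {H : Subgroup F} {g h : F} (hg : g ∈ H)
    (hh : h ∈ H) (hgh : g * h ≠ h * g) : ¬ rk H ≤ 1 := by
  intro hle
  unfold rk at hle
  rw [Cardinal.le_one_iff_subsingleton] at hle
  apply hgh
  have h1 := comm_of_subsingleton (IsFreeGroup.toFreeGroup H ⟨g, hg⟩)
    (IsFreeGroup.toFreeGroup H ⟨h, hh⟩)
  rw [← map_mul, ← map_mul] at h1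
  exact congrArg Subtype.val ((IsFreeGroup.toFreeGroup H).injective h1)

/-! ### The example -/

/-- The free group of rank two. -/
abbrev F2 := FreeGroup (Fin 2)

/-- `x`. -/
def x : F2 := FreeGroup.of 0
/-- `y`. -/
def y : F2 := FreeGroup.of 1
/-- `q = y x y⁻¹`. -/
def q : F2 := y * x * y⁻¹
/-- `r = x⁻¹ y x y⁻¹`. -/
def r : F2 := x⁻¹ * q

/-- `⟨x, r²⟩`. -/
def H : Subgroup F2 := Subgroup.closure (Set.range ![x, r * r])
/-- `⟨y x y⁻¹, r²⟩`. -/
def G : Subgroup F2 := Subgroup.closure (Set.range ![q, r * r])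

lemma range2 {α : Type} (a b : α) : Set.range ![a, b] = {a, b} := by
  simp [Set.pair_comm]

lemma x_mem : x ∈ H := Subgroup.subset_closure ⟨0, rfl⟩
lemma rr_mem_H : r * r ∈ H := Subgroup.subset_closure ⟨1, rfl⟩
lemma q_mem : q ∈ G := Subgroup.subset_closure ⟨0, rfl⟩
lemma rr_mem_G : r * r ∈ G := Subgroup.subset_closure ⟨1, rfl⟩

lemma initial_top {n : ℕ} (b : FreeGroupBasis (Fin n) (FreeGroup (Fin n))) : initial b n = ⊤ := by
  rw [eq_top_iff]
  have h1 : (⊤ : Subgroup (FreeGroup (Fin n))) =
      Subgroup.map (b.repr.symm : FreeGroup (Fin n) →* FreeGroup (Fin n)) ⊤ := by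
    rw [← MonoidHom.range_eq_map, eq_comm, MonoidHom.range_eq_top]
    exact b.repr.symm.surjective
  rw [h1, ← FreeGroup.closure_range_of, MonoidHom.map_closure, Subgroup.closure_le]
  rintro _ ⟨_, ⟨j, rfl⟩, rfl⟩
  exact Subgroup.subset_closure ⟨j, j.2, rfl⟩

lemma initial_one (b : FreeGroupBasis (Fin 2) F2) : initial b 1 = Subgroup.zpowers (b 0) := by
  rw [Subgroup.zpowers_eq_closure]
  unfold initial
  congr 1
  ext g
  constructor
  · rintro ⟨j, hj, rfl⟩
    have : j = 0 := by
      apply Fin.ext; simp only [Fin.val_zero]; omega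
    rw [this]; rfl
  · intro hg
    rw [Set.mem_singleton_iff] at hg
    exact ⟨0, by norm_num, hg.symm⟩

/-- A subgroup of `F₂` generated by `b 0` and one more element is in echelon form
with respect to `b`. -/
lemma echelon_of (b : FreeGroupBasis (Fin 2) F2) (s : F2) (K : Subgroup F2)
    (hK : K = Subgroup.closure (Set.range ![b 0, s])) : EchelonForm b K := by
  have hb0 : b 0 ∈ K := by rw [hK]; exact Subgroup.subset_closure ⟨0, rfl⟩
  have hb1 : b 0 ≠ 1 := by
    intro h
    have h1 : b.repr (b 0) = FreeGroup.of 0 := b.repr_apply_coe 0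
    rw [h, map_one] at h1
    exact FreeGroup.of_ne_one (0 : Fin 2) h1.symm
  have hint : K ⊓ initial b 1 = Subgroup.closure (Set.range ![b 0]) := by
    rw [initial_one]
    apply le_antisymm
    · refine inf_le_right.trans ?_
      rw [Subgroup.zpowers_le]
      exact Subgroup.subset_closure ⟨0, rfl⟩
    · rw [Subgroup.closure_le]
      rintro _ ⟨j, rfl⟩
      have : j = 0 := Subsingleton.elim _ _
      rw [this]
      exact ⟨hb0, Subgroup.mem_zpowers _⟩
  intro i hi hi2
  interval_cases i
  · rw [hint]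
    refine (rk_closure_le 1 _).trans ?_
    simp
  · rw [initial_top, inf_top_eq]
    have h1 : rk K ≤ 2 := by
      rw [hK]; exact_mod_cast rk_closure_le 2 _
    have h2 : 1 ≤ rk (K ⊓ initial b (2 - 1)) := by
      refine rk_ne_zero (g := b 0) ⟨hb0, ?_⟩ hb1
      change b 0 ∈ initial b 1
      rw [initial_one]
      exact Subgroup.mem_zpowers _
    calc rk K ≤ 2 := h1
      _ = 1 + 1 := by norm_num
      _ ≤ _ := by gcongr

lemma echelon_H : IsEchelon H :=
  ⟨FreeGroupBasis.ofFreeGroup (Fin 2), echelon_of _ (r * r) H rfl⟩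

lemma echelon_G : IsEchelon G := by
  refine ⟨(FreeGroupBasis.ofFreeGroup (Fin 2)).map (MulAut.conj y), echelon_of _ (r * r) G ?_⟩
  have : ((FreeGroupBasis.ofFreeGroup (Fin 2)).map (MulAut.conj y)) 0 = q := by
    rw [FreeGroupBasis.map_apply, FreeGroupBasis.ofFreeGroup_apply]
    rfl
  rw [this]
  rfl

/-! ### Exponent sums -/

/-- The exponent sum of `x`. -/
def ex : F2 →* Multiplicative ℤ := FreeGroup.lift ![Multiplicative.ofAdd 1, 1]
/-- The exponent sum of `y`. -/
def ey : F2 →* Multiplicative ℤ := FreeGroup.lift ![1, Multiplicative.ofAdd 1]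

lemma ex_x : ex x = Multiplicative.ofAdd 1 := by simp [ex, x]
lemma ex_y : ex y = 1 := by simp [ex, y]
lemma ey_x : ey x = 1 := by simp [ey, x]
lemma ex_q : ex q = Multiplicative.ofAdd 1 := by simp [q, ex_x, ex_y]
lemma ex_r : ex r = 1 := by simp [r, ex_x, ex_q]
lemma ey_q : ey q = 1 := by simp [q, ey_x]
lemma ey_r : ey r = 1 := by simp [r, ey_x, ey_q]

lemma ey_H {g : F2} (hg : g ∈ H) : ey g = 1 := by
  have h : H ≤ ey.ker := by
    unfold H
    rw [Subgroup.closure_le, range2]
    rintro z (rfl | rfl)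
    · exact ey_x
    · simp [ey_r]
  exact h hg

/-- The permutation `x` acts by. -/
def X : Equiv.Perm (ℤ × Bool × Bool) where
  toFun p := match p with
    | (n, false, false) => (n + 1, false, false)
    | (n, true, false) => (n, true, false)
    | (n, false, true) => (n, true, true)
    | (n, true, true) => (n + 1, false, true)
  invFun p := match p with
    | (n, false, false) => (n - 1, false, false)
    | (n, true, false) => (n, true, false)
    | (n, true, true) => (n, false, true)
    | (n, false, true) => (n - 1, true, true)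
  left_inv := by rintro ⟨n, b, c⟩; cases b <;> cases c <;> simp
  right_inv := by rintro ⟨n, b, c⟩; cases b <;> cases c <;> simp

/-- The permutation `y` acts by. -/
def Y : Equiv.Perm (ℤ × Bool × Bool) where
  toFun p := (p.1, p.2.1, !p.2.2)
  invFun p := (p.1, p.2.1, !p.2.2)
  left_inv := by rintro ⟨n, b, c⟩; simp
  right_inv := by rintro ⟨n, b, c⟩; simp

/-- The permutation representation. -/
def rho : F2 →* Equiv.Perm (ℤ × Bool × Bool) := FreeGroup.lift ![X, Y]

lemma rho_x : rho x = X := by simp [rho, x]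
lemma rho_y : rho y = Y := by simp [rho, y]
lemma rho_q : rho q = Y * X * Y⁻¹ := by simp [q, rho_x, rho_y]

lemma rho_rr : rho (r * r) = 1 := by
  have : rho (r * r) = (X⁻¹ * (Y * X * Y⁻¹)) * (X⁻¹ * (Y * X * Y⁻¹)) := by
    simp [r, rho_x, rho_q]
  rw [this]
  ext1 ⟨n, b, c⟩
  cases b <;> cases c <;>
    simp [X, Y, Equiv.Perm.mul_apply, Equiv.Perm.inv_def, Equiv.symm]

lemma rho_H {g : F2} (hg : g ∈ H) : rho g = X ^ (Multiplicative.toAdd (ex g)) := by
  unfold H at hg
  induction hg using Subgroup.closure_induction with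
  | mem z hz =>
    rw [range2] at hz
    rcases hz with rfl | rfl
    · rw [rho_x, ex_x]; simp
    · rw [rho_rr]; simp [ex_r]
  | one => simp
  | mul a b _ _ ha hb => rw [map_mul, ha, hb, map_mul, toAdd_mul, zpow_add]
  | inv a _ ha => rw [map_inv, ha, map_inv, toAdd_inv, zpow_neg]

lemma rho_G {g : F2} (hg : g ∈ G) :
    rho g = (Y * X * Y⁻¹) ^ (Multiplicative.toAdd (ex g)) := by
  unfold G at hg
  induction hg using Subgroup.closure_induction with
  | mem z hz =>
    rw [range2] at hz
    rcases hz with rfl | rfl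
    · rw [rho_q, ex_q]; simp
    · rw [rho_rr]; simp [ex_r]
  | one => simp
  | mul a b _ _ ha hb => rw [map_mul, ha, hb, map_mul, toAdd_mul, zpow_add]
  | inv a _ ha => rw [map_inv, ha, map_inv, toAdd_inv, zpow_neg]

lemma X_fix (m : ℤ) : (X ^ m) (0, true, false) = (0, true, false) := by
  have h : X ∈ MulAction.stabilizer (Equiv.Perm (ℤ × Bool × Bool)) ((0 : ℤ), true, false) := by
    rw [MulAction.mem_stabilizer_iff]; rfl
  have h2 := Subgroup.zpow_mem _ h m
  rw [MulAction.mem_stabilizer_iff] at h2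
  exact h2

lemma QQ_apply (n : ℤ) : ((Y * X * Y⁻¹) * (Y * X * Y⁻¹)) (n, true, false) = (n + 1, true, false) := by
  simp [X, Y, Equiv.Perm.mul_apply, Equiv.Perm.inv_def, Equiv.symm]

lemma QQ_pow (m : ℤ) (n : ℤ) :
    (((Y * X * Y⁻¹) * (Y * X * Y⁻¹)) ^ m) (n, true, false) = (n + m, true, false) := by
  set Q := (Y * X * Y⁻¹) * (Y * X * Y⁻¹) with hQ
  have hinv : ∀ n : ℤ, Q⁻¹ (n, true, false) = (n - 1, true, false) := by
    intro n
    rw [Equiv.Perm.inv_eq_iff_eq, hQ, QQ_apply]
    simp
  induction m using Int.induction_on generalizing n with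
  | zero => simp
  | succ k ih =>
    rw [zpow_add_one, Equiv.Perm.mul_apply, hQ, QQ_apply, ← hQ, ih]
    congr 1; ring
  | pred k ih =>
    rw [zpow_sub_one, Equiv.Perm.mul_apply, hinv, ih]
    congr 1; ring

lemma ex_HG {g : F2} (hg : g ∈ H ⊓ G) : ex g = 1 := by
  have h1 := rho_H hg.1
  have h2 := rho_G hg.2
  set m := Multiplicative.toAdd (ex g) with hm
  have h3 : (X ^ m) * (X ^ m) = ((Y * X * Y⁻¹) * (Y * X * Y⁻¹)) ^ m := by
    rw [← h1, (Commute.refl (Y * X * Y⁻¹)).mul_zpow, ← h2]
  have h4 : (X ^ m) ((X ^ m) (0, true, false)) = (0 + m, true, false) := by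
    rw [← QQ_pow m 0, ← h3, Equiv.Perm.mul_apply]
  rw [X_fix, X_fix] at h4
  have h6 : m = 0 := by
    have := congrArg Prod.fst h4
    change 0 = 0 + m at this
    omega
  rw [hm] at h6
  exact toAdd_eq_zero.1 h6

/-- Every homomorphism to `ℤ` kills the intersection. -/
lemma hom_HG (f : F2 →* Multiplicative ℤ) {g : F2} (hg : g ∈ H ⊓ G) : f g = 1 := by
  have h1 : ∀ g : F2, f g = (f x) ^ (Multiplicative.toAdd (ex g)) *
      (f y) ^ (Multiplicative.toAdd (ey g)) := by
    let f' : F2 →* Multiplicative ℤ :=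
      ((zpowersHom (Multiplicative ℤ) (f x)).comp ex) * ((zpowersHom (Multiplicative ℤ) (f y)).comp ey)
    have h2 : f = f' := by
      ext i
      fin_cases i
      · simp [f', ex, ey, x, zpowersHom_apply]
      · simp [f', ex, ey, y, zpowersHom_apply]
    intro g
    have h3 := DFunLike.congr_fun h2 g
    rw [h3]
    simp [f', zpowersHom_apply]
  rw [h1, ex_HG hg, ey_H hg.1]
  simp

lemma conj_mem : x * (r * r) * x⁻¹ ∈ H ⊓ G := by
  constructor
  · exact H.mul_mem (H.mul_mem x_mem rr_mem_H) (H.inv_mem x_mem)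
  · have : x * (r * r) * x⁻¹ = q * (r * r) * q⁻¹ := by
      have hq : q = x * r := by simp [r]
      rw [hq]; group
    rw [this]
    exact G.mul_mem (G.mul_mem q_mem rr_mem_G) (G.inv_mem q_mem)

lemma noncomm : (r * r) * (x * (r * r) * x⁻¹) ≠ (x * (r * r) * x⁻¹) * (r * r) := by
  decide

lemma not_echelon : ¬ IsEchelon (H ⊓ G) := by
  rintro ⟨b, hb⟩
  have h1 := hb 2 (by norm_num) le_rfl
  rw [initial_top, inf_top_eq] at h1
  have h2 : ¬ rk (H ⊓ G) ≤ 1 := two_le_rk (g := r * r) ⟨rr_mem_H, rr_mem_G⟩ conj_mem noncomm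
  apply h2
  have h3 : H ⊓ G ⊓ initial b (2 - 1) = Subgroup.closure (Set.range ![]) := by
    rw [Matrix.range_empty, Subgroup.closure_empty, eq_bot_iff]
    rintro g ⟨hg, hg2⟩
    change g ∈ initial b 1 at hg2
    rw [initial_one] at hg2
    obtain ⟨m, rfl⟩ := Subgroup.mem_zpowers_iff.1 hg2
    have h4 := hom_HG (b.lift ![Multiplicative.ofAdd 1, 1]) hg
    rw [map_zpow, FreeGroupBasis.lift_apply_apply] at h4
    have h5 : m = 0 := by
      have := congrArg Multiplicative.toAdd h4
      simpa using this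
    rw [h5]
    simp
  rw [h3] at h1
  refine h1.trans ?_
  have h4 := rk_closure_le 0 (![] : Fin 0 → F2)
  calc rk (Subgroup.closure (Set.range (![] : Fin 0 → F2))) + 1 ≤ (0 : ℕ) + 1 := by gcongr
    _ = 1 := by simp

/-- **The answer to Q1 of MP_339e71_al is negative**, already in the free group of rank two:
there are echelon subgroups `H`, `G` of a free group `F_n` whose intersection is not an echelon
subgroup. -/
theorem result : ∃ (n : ℕ) (H G : Subgroup (FreeGroup (Fin n))),
    IsEchelon H ∧ IsEchelon G ∧ ¬ IsEchelon (H ⊓ G) :=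
  ⟨2, H, G, echelon_H, echelon_G, not_echelon⟩

end Pool.Agent.Results.MP_339e71_al.EchelonInter
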